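import Pool.Agent.TH101.RG.OneZ
import Pool.Agent.Erdos456.Mertens

set_option autoImplicit false
set_option maxHeartbeats 4000000

/-! # The numbers `a k p + b`, `k` up to the record size, at a prime `p` -/

namespace Pool.Agent.R502.PF

open Finset Filter
open Pool.Agent.H312R2.RG (ev_ff)
open Pool.Agent.H256R2.SC (ff)

/-- `∑ k / φ(k) ≤ C K` -/
theorem tot_sum : ∃ C : ℝ, 1 ≤ C ∧ ∀ K : ℕ, ∑ k ∈ Icc 1 K, ((k : ℝ) / (Nat.totient k : ℝ)) ≤ C * K := by
  obtain ⟨C, hC⟩ := Pool.Agent.Erdos456.Mert.totRatio_moment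
  have hle : ∀ K : ℕ, ∑ k ∈ Icc 1 K, ((k : ℝ) / (Nat.totient k : ℝ)) ≤ C * K := by
    intro K
    refine le_trans (sum_le_sum fun k hk => ?_) (hC K)
    rw [mem_Icc] at hk
    have h1 : (1 : ℝ) ≤ (k : ℝ) / (Nat.totient k : ℝ) := by
      have h2 : 0 < Nat.totient k := Nat.totient_pos.2 (by omega)
      rw [le_div_iff₀ (by exact_mod_cast h2), one_mul]
      exact_mod_cast Nat.totient_le k
    exact le_self_pow₀ h1 (by norm_num)
  refine ⟨C, ?_, hle⟩
  have := hle 1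
  simp at this
  linarith

/-- the class of `n` modulo `p` that kills the values at `z ≡ c` -/
theorem exists_class (a b : ℤ) (p : ℕ) (hp : p.Prime) (hpa : ¬ (p : ℤ) ∣ a) (hpb : ¬ (p : ℤ) ∣ b)
    (c : ℤ) (hc : ¬ (p : ℤ) ∣ c) : ∃ ρ : ℕ, ¬ p ∣ ρ ∧
      ∀ z n : ℤ, (p : ℤ) ∣ z - c → (p : ℤ) ∣ n - ρ → (p : ℤ) ∣ a * z * n + b := by
  have : Fact p.Prime := ⟨hp⟩
  have ha' : (a : ZMod p) ≠ 0 := fun h => hpa ((ZMod.intCast_zmod_eq_zero_iff_dvd a p).1 h)
  have hb' : (b : ZMod p) ≠ 0 := fun h => hpb ((ZMod.intCast_zmod_eq_zero_iff_dvd b p).1 h)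
  have hc' : (c : ZMod p) ≠ 0 := fun h => hc ((ZMod.intCast_zmod_eq_zero_iff_dvd c p).1 h)
  set u : ZMod p := -(b : ZMod p) * ((a : ZMod p) * c)⁻¹ with hu
  have hu0 : u ≠ 0 := mul_ne_zero (neg_ne_zero.2 hb') (inv_ne_zero (mul_ne_zero ha' hc'))
  refine ⟨u.val, ?_, ?_⟩
  · intro h
    apply hu0
    have := (ZMod.natCast_eq_zero_iff u.val p).2 h
    rwa [ZMod.natCast_zmod_val] at this
  · intro z n hz hn
    rw [← ZMod.intCast_zmod_eq_zero_iff_dvd] at hz hn ⊢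
    push_cast at hz hn ⊢
    rw [ZMod.natCast_zmod_val] at hn
    have hz' : (z : ZMod p) = c := sub_eq_zero.1 hz
    have hn' : (n : ZMod p) = u := sub_eq_zero.1 hn
    rw [hz', hn', hu]
    field_simp
    ring

theorem forms (a b : ℤ) (ha : a ≠ 0) (hb : b ≠ 0) (d : ℕ) (hd : Squarefree d) :
    ∃ c : ℝ, 0 < c ∧ ∀ᶠ X : ℝ in atTop, ∀ h : ℕ, h.Coprime d →
    ∀ bad : Finset ℕ, (bad.card : ℝ) ≤ X ^ (9 / 10 : ℝ) →
    ∃ p : ℕ, p.Prime ∧ X < p ∧ (p : ℝ) ≤ 3 * X ∧ p ∉ bad ∧ p ≡ h [MOD d] ∧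
      ∀ k : ℤ, k ≠ 0 → |(k : ℝ)| ≤ c * ff X → ¬ (a * k * p + b).natAbs.Prime := by
  obtain ⟨C, hC1, hC⟩ := tot_sum
  set g : ℕ := (a * b).natAbs * d with hg
  have hg0 : g ≠ 0 := mul_ne_zero (Int.natAbs_ne_zero.2 (mul_ne_zero ha hb)) hd.ne_zero
  obtain ⟨c₁, hc₁, hone⟩ := Pool.Agent.TH101.RG.oneZ 2 2 (∑ p ∈ g.primeFactors, (1 : ℝ) / p)
  set c : ℝ := min 1 (c₁ / (2 * C)) with hcd
  have hc : 0 < c := lt_min one_pos (by positivity)
  have hc1 : c ≤ 1 := min_le_left _ _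
  have hcC : 2 * C * c ≤ c₁ := by
    have : c ≤ c₁ / (2 * C) := min_le_right _ _
    calc 2 * C * c ≤ 2 * C * (c₁ / (2 * C)) := by gcongr
      _ = c₁ := by field_simp
  refine ⟨c, hc, ?_⟩
  have t1 := Real.tendsto_log_atTop
  have t2 : Tendsto (fun y : ℝ => Real.log (Real.log y)) atTop atTop := t1.comp t1
  have t3 : Tendsto (fun y : ℝ => Real.log (Real.log (Real.log y))) atTop atTop := t1.comp t2
  have t4 : Tendsto (fun y : ℝ => Real.log (Real.log (Real.log (Real.log y)))) atTop atTop := t1.comp t3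
  have hrp : ∀ᶠ X : ℝ in atTop, X ^ (1 / 1000 : ℝ) ≤ X / 4 := by
    have h1 : ∀ᶠ X : ℝ in atTop, 4 ≤ X ^ (999 / 1000 : ℝ) :=
      (tendsto_rpow_atTop (by norm_num : (0:ℝ) < 999 / 1000)).eventually_ge_atTop 4
    filter_upwards [h1, eventually_gt_atTop 0] with X h2 h3
    have h4 : X = X ^ (999 / 1000 : ℝ) * X ^ (1 / 1000 : ℝ) := by
      rw [← Real.rpow_add h3]
      norm_num
    have h5 : 0 < X ^ (1 / 1000 : ℝ) := Real.rpow_pos_of_pos h3 _
    nlinarith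
  filter_upwards [hone d hd, ev_ff c hc, ev_ff 1 one_pos, t1.eventually_ge_atTop ((g : ℝ) + 1), t3.eventually_ge_atTop 1,
    t4.eventually_ge_atTop 0, t2.eventually_ge_atTop 1, eventually_ge_atTop (4 * (|(a : ℝ)| + |(b : ℝ)| + 1)), hrp]
    with X hX hff hff1 hLg h31 h41 h21 hXab hXr
  intro h hh bad hbad
  set L := Real.log X with hL
  have hab1 : 0 ≤ |(a : ℝ)| := abs_nonneg _
  have hab2 : 0 ≤ |(b : ℝ)| := abs_nonneg _
  have hX4 : 4 ≤ X := by linarith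
  have hX0 : 0 < X := by linarith
  have hgr : (1 : ℝ) ≤ g := by exact_mod_cast Nat.pos_of_ne_zero hg0
  have hL1 : 1 ≤ L := by linarith
  have hff0 : 0 ≤ ff X := hff.2.1
  -- `ff X ≤ log X (log log X)^2`
  have hffle : ff X ≤ L * (Real.log L) ^ 2 := by
    unfold ff
    rw [← hL]
    have hl3 : 0 < Real.log (Real.log L) := by linarith
    have h5 : Real.log (Real.log (Real.log L)) ≤ (Real.log (Real.log L)) ^ 2 := by
      have h6 := Real.log_le_sub_one_of_pos hl3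
      nlinarith
    rw [div_le_iff₀ (by positivity)]
    exact mul_le_mul_of_nonneg_left h5 (by positivity)
  set N : ℕ := ⌊c * ff X⌋₊ with hN
  have hNle : (N : ℝ) ≤ c * ff X := Nat.floor_le (by positivity)
  set Z : Finset ℤ := (Icc 1 N).image (fun n : ℕ => (n : ℤ)) ∪ (Icc 1 N).image (fun n : ℕ => -(n : ℤ)) with hZ
  have hmem : ∀ k : ℤ, k ≠ 0 → |(k : ℝ)| ≤ c * ff X → k ∈ Z := by
    intro k hk0 hk
    have h1 : k.natAbs ≤ N := by
      apply Nat.le_floor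
      rwa [Nat.cast_natAbs, Int.cast_abs]
    have h2 : 1 ≤ k.natAbs := Nat.one_le_iff_ne_zero.2 (Int.natAbs_ne_zero.2 hk0)
    rw [hZ, mem_union, mem_image, mem_image]
    rcases le_total 0 k with h0 | h0
    · left
      exact ⟨k.natAbs, mem_Icc.2 ⟨h2, h1⟩, by omega⟩
    · right
      exact ⟨k.natAbs, mem_Icc.2 ⟨h2, h1⟩, by omega⟩
  have hZb : ∀ z ∈ Z, z ≠ 0 ∧ |(z : ℝ)| ≤ N := by
    intro z hz
    rw [hZ, mem_union, mem_image, mem_image] at hz
    rcases hz with ⟨n, hn, rfl⟩ | ⟨n, hn, rfl⟩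
    · rw [mem_Icc] at hn
      refine ⟨by omega, ?_⟩
      push_cast
      rw [abs_of_nonneg (by positivity)]
      exact_mod_cast hn.2
    · rw [mem_Icc] at hn
      refine ⟨by omega, ?_⟩
      push_cast
      rw [abs_neg, abs_of_nonneg (by positivity)]
      exact_mod_cast hn.2
  have hNL : (N : ℝ) ≤ L * (Real.log L) ^ 2 := by
    refine hNle.trans (le_trans ?_ hffle)
    nlinarith
  obtain ⟨p, hp, hXp, hp3, hpb, hpd, hmain⟩ := hX (fun z => a * z) (fun _ => b) g hg0 ⟨(a * b).natAbs, by rw [hg]; ring⟩ le_rfl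
    (by
      have : L ≤ L ^ 2 := by nlinarith
      linarith)
    (by
      intro p hp hpg c hc
      have h1 : ¬ (p : ℤ) ∣ a := by
        intro h
        apply hpg
        rw [hg, Int.natAbs_mul]
        exact Dvd.dvd.mul_right (Dvd.dvd.mul_right (Int.natCast_dvd.1 h) _) _
      have h2 : ¬ (p : ℤ) ∣ b := by
        intro h
        apply hpg
        rw [hg, Int.natAbs_mul]
        exact Dvd.dvd.mul_right (Dvd.dvd.mul_left (Int.natCast_dvd.1 h) _) _
      exact exists_class a b p hp h1 h2 c hc)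
    h hh bad hbad Z (fun z hz => ⟨(hZb z hz).1, (hZb z hz).2.trans hNL⟩)
    (fun z hz => ⟨mul_ne_zero ha (hZb z hz).1, hb⟩)
    (by
      intro z hz
      have h1 := (hZb z hz).2
      have h2 : (N : ℝ) ≤ X := by
        have := hff.2.2
        nlinarith
      have h3 : X ^ 2 = X * X := by ring
      have h4 : X ≤ X * X := by nlinarith
      constructor
      · push_cast
        rw [abs_mul, h3]
        have h5 : |(a : ℝ)| ≤ X := by linarith
        have := abs_nonneg (z : ℝ)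
        exact mul_le_mul h5 (h1.trans h2) this hX0.le
      · have h5 : |(b : ℝ)| ≤ X := by linarith
        rw [h3]
        linarith)
    (by
      intro k _ l _ hkl h
      apply hkl
      have h1 : (a * b) * k = (a * b) * l := by linarith
      exact mul_left_cancel₀ (mul_ne_zero ha hb) h1)
    (by
      have h1 : ∀ e : ℕ → ℤ, (∀ n, (e n).natAbs = n) →
          ∑ z ∈ (Icc 1 N).image e, ((z.natAbs : ℝ) / (z.natAbs.totient : ℝ)) ≤ C * N := by
        intro e he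
        rw [sum_image]
        · refine le_trans (le_of_eq (sum_congr rfl fun n _ => ?_)) (hC N)
          rw [he]
        · intro m _ n _ hmn
          have := congrArg Int.natAbs hmn
          rwa [he, he] at this
      have h2 := h1 (fun n : ℕ => (n : ℤ)) (fun n => by simp)
      have h3 := h1 (fun n : ℕ => -(n : ℤ)) (fun n => by simp)
      have h4 : ∑ z ∈ Z, ((z.natAbs : ℝ) / (z.natAbs.totient : ℝ)) ≤
          ∑ z ∈ (Icc 1 N).image (fun n : ℕ => (n : ℤ)), ((z.natAbs : ℝ) / (z.natAbs.totient : ℝ)) +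
          ∑ z ∈ (Icc 1 N).image (fun n : ℕ => -(n : ℤ)), ((z.natAbs : ℝ) / (z.natAbs.totient : ℝ)) := by
        rw [hZ, ← sum_union_inter]
        have : 0 ≤ ∑ z ∈ (Icc 1 N).image (fun n : ℕ => (n : ℤ)) ∩ (Icc 1 N).image (fun n : ℕ => -(n : ℤ)),
            ((z.natAbs : ℝ) / (z.natAbs.totient : ℝ)) := sum_nonneg fun z _ => by positivity
        linarith
      calc ∑ z ∈ Z, ((z.natAbs : ℝ) / (z.natAbs.totient : ℝ)) ≤ 2 * C * N := by linarith
        _ ≤ 2 * C * (c * ff X) := by gcongr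
        _ = 2 * C * c * ff X := by ring
        _ ≤ c₁ * ff X := by gcongr)
  refine ⟨p, hp, hXp, hp3, hpb, hpd, fun k hk0 hk hpr => ?_⟩
  obtain ⟨q, hq, hqX, -, hqd⟩ := hmain k (hmem k hk0 hk)
  have h1 : q ∣ (a * k * p + b).natAbs := Int.natCast_dvd.1 hqd
  have h2 : q = (a * k * p + b).natAbs := (Nat.prime_dvd_prime_iff_eq hq hpr).1 h1
  have h3 : ((q : ℕ) : ℝ) = |(a : ℝ) * k * p + b| := by
    rw [h2, Nat.cast_natAbs, Int.cast_abs]
    push_cast
    rfl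
  have h4 : (1 : ℝ) ≤ |(a : ℝ)| := by exact_mod_cast Int.one_le_abs ha
  have h5 : (1 : ℝ) ≤ |(k : ℝ)| := by exact_mod_cast Int.one_le_abs hk0
  have h6 : X ≤ |(a : ℝ) * k * p| := by
    rw [abs_mul, abs_mul, abs_of_nonneg (show (0 : ℝ) ≤ (p : ℝ) by positivity)]
    have h7 : 1 ≤ |(a : ℝ)| * |(k : ℝ)| := by nlinarith
    have h8 : (0 : ℝ) ≤ p := by positivity
    nlinarith
  have h7 : |(a : ℝ) * k * p| ≤ |(a : ℝ) * k * p + b| + |(b : ℝ)| := by
    have := abs_sub ((a : ℝ) * k * p + b) b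
    rwa [add_sub_cancel_right] at this
  rw [← h3] at h7
  linarith

end Pool.Agent.R502.PF
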